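import Pool.Agent.Results.MP_572a82_pr.FragmentSize

set_option autoImplicit false

/-!
# The expected fragment size of bridge-addable classes: `E[frag] ≤ 1 + 49 n^(-1/12)` for every `n`

A set of graphs on the vertex set `{0, ..., n-1}` is bridge-addable if adding an edge between two different
components never leaves it. Q1 of MP_572a82_pr asks whether `limsup E[frag(R_n)] ≤ 1` for every bridge-addable
class. We prove a bound with an absolute constant and a power rate, for every `n` and every single bridge-addable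
set of graphs on `n` vertices.
-/

open Filter

namespace Pool.Agent.Results.MP_572a82_pr.PowerRate

/-- The set `S` of graphs on the vertex set `Fin n` is bridge-addable: adding an edge between two vertices in
different components of a member never leaves `S`. -/
def BridgeAddableSet {n : ℕ} (S : Set (SimpleGraph (Fin n))) : Prop :=
  ∀ G ∈ S, ∀ u v : Fin n, G.connectedComponentMk u ≠ G.connectedComponentMk v →
    G ⊔ SimpleGraph.edge u v ∈ S

/-- The fragment size: number of vertices minus the number of vertices of a largest component. -/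
noncomputable def frag {n : ℕ} (G : SimpleGraph (Fin n)) : ℕ :=
  n - ⨆ c : G.ConnectedComponent, c.supp.ncard

/-- The expected fragment size of a uniformly random element of `S`. -/
noncomputable def meanFrag {n : ℕ} (S : Set (SimpleGraph (Fin n))) : ℝ :=
  (∑ᶠ G ∈ S, (frag G : ℝ)) / S.ncard

/-- the bound of the starting file for the parameters `n^(11/12)` and `n^(2/3)` -/
theorem num {n x K1 K2 : ℝ} (hx : 1 ≤ x) (hn : n = x ^ 12) (h1 : n / x ≤ K1) (h1' : K1 ≤ 2 * (n / x))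
    (h2 : n / x ^ 4 ≤ K2) (h2' : K2 ≤ 2 * (n / x ^ 4)) :
    1 + 8 * K1 / n + n / (2 * K1 ^ 2) +
      n * ((2 + 2 * n * (4 * K2 + 2) / K1 + 4 * n ^ 4 / K1 ^ 4) + √(4 * n ^ 4 / (K1 ^ 2 * K2))) / K1 ^ 2
      ≤ 1 + 49 / x := by
  have hx0 : 0 < x := by linarith
  have e1 : n / x = x ^ 11 := by rw [hn]; field_simp
  have e2 : n / x ^ 4 = x ^ 8 := by rw [hn]; field_simp
  rw [e1] at h1 h1'
  rw [e2] at h2 h2'
  subst hn
  have p11 : 0 < x ^ 11 := by positivity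
  have p8 : 1 ≤ x ^ 8 := one_le_pow₀ hx
  have hK1 : 0 < K1 := by linarith
  have hK2 : 1 ≤ K2 := by linarith
  have hK20 : 0 < K2 := by linarith
  have hpow : ∀ a : ℕ, 1 ≤ a → 1 / x ^ a ≤ 1 / x := by
    intro a ha
    apply one_div_le_one_div_of_le hx0
    calc x = x ^ 1 := (pow_one x).symm
      _ ≤ x ^ a := pow_le_pow_right₀ hx ha
  have t1 : 8 * K1 / x ^ 12 ≤ 16 / x := by
    rw [div_le_div_iff₀ (by positivity) hx0]
    nlinarith
  have hK12 : x ^ 22 ≤ K1 ^ 2 := by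
    calc x ^ 22 = (x ^ 11) ^ 2 := by ring
      _ ≤ K1 ^ 2 := pow_le_pow_left₀ p11.le h1 2
  have t2 : x ^ 12 / (2 * K1 ^ 2) ≤ 1 / x := by
    calc x ^ 12 / (2 * K1 ^ 2) ≤ x ^ 12 / x ^ 22 := by
          apply div_le_div_of_nonneg_left (by positivity) (by positivity)
          nlinarith [pow_pos hx0 22]
      _ = 1 / x ^ 10 := by field_simp
      _ ≤ 1 / x := hpow 10 (by norm_num)
  have s1 : 2 ≤ 2 * x ^ 9 := by
    have := one_le_pow₀ (n := 9) hx
    linarith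
  have s2 : 2 * x ^ 12 * (4 * K2 + 2) / K1 ≤ 24 * x ^ 9 := by
    rw [div_le_iff₀ hK1]
    calc 2 * x ^ 12 * (4 * K2 + 2) ≤ 2 * x ^ 12 * (4 * K2 + 2 * K2) := by gcongr; linarith
      _ = 12 * x ^ 12 * K2 := by ring
      _ ≤ 12 * x ^ 12 * (2 * x ^ 8) := by gcongr
      _ = 24 * x ^ 9 * x ^ 11 := by ring
      _ ≤ 24 * x ^ 9 * K1 := by gcongr
  have s3 : 4 * (x ^ 12) ^ 4 / K1 ^ 4 ≤ 4 * x ^ 9 := by
    rw [div_le_iff₀ (by positivity)]
    calc 4 * (x ^ 12) ^ 4 = 4 * x ^ 4 * (x ^ 11) ^ 4 := by ring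
      _ ≤ 4 * x ^ 9 * K1 ^ 4 := by
        have h9 : x ^ 4 ≤ x ^ 9 := pow_le_pow_right₀ hx (by norm_num)
        gcongr
  have s4 : √(4 * (x ^ 12) ^ 4 / (K1 ^ 2 * K2)) ≤ 2 * x ^ 9 := by
    rw [Real.sqrt_le_left (by positivity), div_le_iff₀ (by positivity)]
    calc 4 * (x ^ 12) ^ 4 = (2 * x ^ 9) ^ 2 * (x ^ 22 * x ^ 8) := by ring
      _ ≤ (2 * x ^ 9) ^ 2 * (K1 ^ 2 * K2) := by gcongr
  have t3 : x ^ 12 * ((2 + 2 * x ^ 12 * (4 * K2 + 2) / K1 + 4 * (x ^ 12) ^ 4 / K1 ^ 4) +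
      √(4 * (x ^ 12) ^ 4 / (K1 ^ 2 * K2))) / K1 ^ 2 ≤ 32 / x := by
    calc x ^ 12 * ((2 + 2 * x ^ 12 * (4 * K2 + 2) / K1 + 4 * (x ^ 12) ^ 4 / K1 ^ 4) +
      √(4 * (x ^ 12) ^ 4 / (K1 ^ 2 * K2))) / K1 ^ 2 ≤ x ^ 12 * (32 * x ^ 9) / x ^ 22 := by
          gcongr
          linarith
      _ = 32 / x := by field_simp
  have h49 : 49 / x = 16 / x + 1 / x + 32 / x := by ring
  rw [h49]
  linarith

/-- For every `n ≥ 1` and every nonempty bridge-addable set `S` of graphs on `n` vertices,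
`E[frag(R)] ≤ 1 + 49 n^(-1/12)` for a uniformly random element `R` of `S`. -/
theorem rate (n : ℕ) (hn : 1 ≤ n) (S : Set (SimpleGraph (Fin n))) (hne : S.Nonempty)
    (hS : BridgeAddableSet S) : meanFrag S ≤ 1 + 49 * (n : ℝ) ^ (-(1 / 12) : ℝ) := by
  classical
  have hn1 : (1 : ℝ) ≤ n := by exact_mod_cast hn
  have hn0 : (0 : ℝ) < n := by linarith
  set x : ℝ := (n : ℝ) ^ (1 / 12 : ℝ) with hx
  have hx1 : 1 ≤ x := Real.one_le_rpow hn1 (by norm_num)
  have hx0 : 0 < x := by linarith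
  have hx12 : (n : ℝ) = x ^ 12 := by
    rw [hx, ← Real.rpow_natCast, ← Real.rpow_mul hn0.le]
    norm_num
  have hinv : (n : ℝ) ^ (-(1 / 12) : ℝ) = 1 / x := by
    rw [Real.rpow_neg hn0.le, ← hx, one_div]
  have e1 : (n : ℝ) / x = x ^ 11 := by rw [hx12]; field_simp
  have e2 : (n : ℝ) / x ^ 4 = x ^ 8 := by rw [hx12]; field_simp
  have q1 : 1 ≤ (n : ℝ) / x := by rw [e1]; exact one_le_pow₀ hx1
  have q2 : 1 ≤ (n : ℝ) / x ^ 4 := by rw [e2]; exact one_le_pow₀ hx1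
  have q12 : (n : ℝ) / x ^ 4 ≤ (n : ℝ) / x := by
    rw [e1, e2]; exact pow_le_pow_right₀ hx1 (by norm_num)
  have hk : ⌈(n : ℝ) / x ^ 4⌉₊ ≤ ⌈(n : ℝ) / x⌉₊ := Nat.ceil_mono q12
  have hk2 : 1 ≤ ⌈(n : ℝ) / x ^ 4⌉₊ := Nat.one_le_ceil_iff.mpr (by linarith)
  obtain ⟨A, rfl⟩ : ∃ A : Finset (SimpleGraph (Fin n)), (A : Set (SimpleGraph (Fin n))) = S :=
    ⟨(Set.toFinite S).toFinset, Set.Finite.coe_toFinset _⟩
  have hA : Pool.Agent.Results.MP_572a82_pr.FragmentSize.BA A := by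
    intro G hG u v huv
    have := hS G (by simpa using hG) u v (fun h => huv (SimpleGraph.ConnectedComponent.exact h))
    simpa using this
  have : Nonempty (Fin n) := ⟨⟨0, hn⟩⟩
  have hm := Pool.Agent.Results.MP_572a82_pr.FragmentSize.mean_bound hA (by simpa using hne) hk hk2
    (n := (n : ℝ)) (by simp) rfl rfl
  have hb := num (K1 := (⌈(n : ℝ) / x⌉₊ : ℝ)) (K2 := (⌈(n : ℝ) / x ^ 4⌉₊ : ℝ)) hx1 hx12
    (Nat.le_ceil _) ((Nat.ceil_lt_add_one (by linarith)).le.trans (by linarith))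
    (Nat.le_ceil _) ((Nat.ceil_lt_add_one (by linarith)).le.trans (by linarith))
  have heq := Pool.Agent.Results.MP_572a82_pr.FragmentSize.meanFrag_eq A
  rw [hinv]
  calc meanFrag (A : Set (SimpleGraph (Fin n)))
      = Pool.Agent.Results.MP_572a82_pr.FragmentSize.meanFrag (A : Set (SimpleGraph (Fin n))) := rfl
    _ = _ := heq
    _ ≤ _ := hm
    _ ≤ 1 + 49 / x := hb
    _ = 1 + 49 * (1 / x) := by ring

/-- For every `n ≥ 1` and every nonempty bridge-addable set `S` of graphs on `n` vertices the expected fragment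
size is at most `1 + 49 n^(-1/12)`; in particular `limsup E[frag(R_n)] ≤ 1` for every bridge-addable class. -/
theorem result :
    (∀ n : ℕ, 1 ≤ n → ∀ S : Set (SimpleGraph (Fin n)), S.Nonempty → BridgeAddableSet S →
      meanFrag S ≤ 1 + 49 * (n : ℝ) ^ (-(1 / 12) : ℝ)) ∧
    ∀ 𝒜 : (n : ℕ) → Set (SimpleGraph (Fin n)), (∀ n, 1 ≤ n → (𝒜 n).Nonempty) →
      (∀ n, BridgeAddableSet (𝒜 n)) →
      Filter.limsup (fun n => ((meanFrag (𝒜 n) : ℝ) : EReal)) Filter.atTop ≤ 1 :=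
  ⟨rate, fun 𝒜 hne hba => Pool.Agent.Results.MP_572a82_pr.FragmentSize.result 𝒜 hne hba⟩

end Pool.Agent.Results.MP_572a82_pr.PowerRate
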